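import Pool.Agent.Y753.SHR.R18

set_option autoImplicit false

/-!
MP_112ba8_nt. All moments near the critical line, off a small set of large values. Let `δ(T) → 0`, `δ(T) log T → ∞` and
`κ ≥ 0`. There are sets `E(T) ⊆ [0, T]` of measure `o(δ^(4+4κ) T)`, on which `|ζ(1/2 + δ + it)| > δ^(-2-κ)`, such that for
every real order `β > 0` with `β ≤ 4` or `β ≥ 4 + 4κ` (every order, if `κ = 0`) the normalised moment measure
`(2δ)^(β²/4) |ζ(1/2 + δ + it)|^β dt / T` on `[0, T] \ E(T)` has the predicted total mass `a_{β/2}`, and under it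
`log |ζ|` is asymptotically normal with mean `(β/2) ℓ` and variance `ℓ/2`, `ℓ = log (1/(2δ))`, jointly with all the
twists `(k/h)^{it}`.
-/

open Filter Topology MeasureTheory

/-- the coefficient of `x^j` in `(1 - x)^(-a)`, that is `a (a+1) ... (a+j-1) / j!` -/
noncomputable def Pool.Agent.Results.MP_112ba8_nt.AllOrdersLaw.bin (a : ℝ) (j : ℕ) : ℝ :=
  (∏ i ∈ Finset.range j, (a + i)) / j.factorial

/-- the normalised `c`-th Fourier coefficient of the weight `|1 - z/√p|^(-2a)` on the unit circle -/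
noncomputable def Pool.Agent.Results.MP_112ba8_nt.AllOrdersLaw.loc (a : ℝ) (p c : ℕ) : ℝ :=
  √(p:ℝ) ^ c * (∑' i : ℕ, Pool.Agent.Results.MP_112ba8_nt.AllOrdersLaw.bin a i *
      Pool.Agent.Results.MP_112ba8_nt.AllOrdersLaw.bin a (i + c) / (p:ℝ) ^ (i + c)) /
    ∑' i : ℕ, Pool.Agent.Results.MP_112ba8_nt.AllOrdersLaw.bin a i ^ 2 / (p:ℝ) ^ i

/-- the arithmetic factor of the moment of order `2a` -/
noncomputable def Pool.Agent.Results.MP_112ba8_nt.AllOrdersLaw.afac (a : ℝ) : ℝ :=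
  ∏' p : Nat.Primes, ((1 - 1 / (p : ℝ)) ^ (a ^ 2) *
    ∑' i : ℕ, Pool.Agent.Results.MP_112ba8_nt.AllOrdersLaw.bin a i ^ 2 / (p : ℝ) ^ i)

open Pool.Agent.Results.MP_112ba8_nt.AllOrdersLaw in
theorem Pool.Agent.Results.MP_112ba8_nt.AllOrdersLaw.result
    (δ : ℝ → ℝ) (hδ : Tendsto δ atTop (𝓝 0)) (hδL : Tendsto (fun T : ℝ => δ T * Real.log T) atTop atTop)
    (κ : ℝ) (hκ : 0 ≤ κ) :
    ∃ E : ℝ → Set ℝ, (∀ T, MeasurableSet (E T) ∧ ∀ t ∈ E T, 0 ≤ t ∧ t ≤ T ∧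
        (δ T) ^ (-(2 + κ)) < ‖riemannZeta ((1 / 2 + δ T : ℝ) + t * Complex.I)‖) ∧
      Tendsto (fun T => (volume (E T)).toReal / (T * (δ T) ^ (4 + 4 * κ))) atTop (𝓝 0) ∧
      ∀ β : ℝ, 0 < β → (β ≤ 4 ∨ 4 + 4 * κ ≤ β) → 0 < afac (β / 2) ∧ ∀ h k : ℕ, 0 < h → 0 < k → Nat.Coprime h k →
        ∀ F : BoundedContinuousFunction ℝ ℝ,
        Tendsto (fun T : ℝ => (((2 * δ T) ^ (β ^ 2 / 4) / T : ℝ) : ℂ) *
          ∫ t in Set.Icc 0 T \ E T, ((‖riemannZeta ((1 / 2 + δ T : ℝ) + t * Complex.I)‖ ^ β *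
            F ((Real.log ‖riemannZeta ((1 / 2 + δ T : ℝ) + t * Complex.I)‖ - β / 2 * Real.log (1 / (2 * δ T))) /
              √(Real.log (1 / (2 * δ T)) / 2)) : ℝ) : ℂ) *
            Complex.exp (Complex.I * t * Real.log ((k:ℝ) / h))) atTop
        (𝓝 ((afac (β / 2) * ((∏ p ∈ (h * k).primeFactors, loc (β / 2) p ((h * k).factorization p)) *
          ∫ x, F x ∂(ProbabilityTheory.gaussianReal 0 1)) : ℝ) : ℂ)) := by
  have e1 : ∀ (b : ℝ) (j : ℕ), bin b j = Pool.Agent.H306R2.lc b j := by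
    intro b j
    unfold bin Pool.Agent.H306R2.lc
    rw [Finset.prod_div_distrib, ← Finset.prod_range_add_one_eq_factorial]
    push_cast
    rfl
  have e2 : ∀ (b : ℝ) (p c : ℕ), loc b p c = Pool.Agent.Y753.NL.nu b p c := by
    intro b p c
    unfold loc Pool.Agent.Y753.NL.nu
    simp_rw [e1, one_div, inv_pow, div_eq_mul_inv]
  have e3 : ∀ b : ℝ, afac b = Pool.Agent.H306R2.aF b := by
    intro b
    unfold afac Pool.Agent.H306R2.aF
    simp_rw [e1, one_div, inv_pow, div_eq_mul_inv]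
  simp_rw [e2, e3]
  have etw : ∀ h k : ℕ, 0 < h → 0 < k → ∀ t : ℝ,
      Pool.Agent.Y753.NL.tw h k t = Complex.exp (Complex.I * t * Real.log ((k:ℝ) / h)) := by
    intro h k hh hk t
    unfold Pool.Agent.Y753.NL.tw
    have hh0 : (h:ℝ) ≠ 0 := by exact_mod_cast hh.ne'
    have hk0 : (k:ℝ) ≠ 0 := by exact_mod_cast hk.ne'
    rw [Real.log_div hk0 hh0]
    congr 1
    ring
  obtain ⟨E, hE, hvol, hm⟩ := Pool.Agent.Y753.SHR.tilt_small hδ hδL hκ
  refine ⟨E, fun T => ⟨(hE T).1, fun t ht => ⟨((hE T).2.1 ht).1, ((hE T).2.1 ht).2, ?_⟩⟩, hvol,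
    fun β hβ hβκ => ⟨Pool.Agent.H306R2.aF_pos (by positivity), fun h k hh hk hc F => ?_⟩⟩
  · have h1 := (hE T).2.2 t ht
    rwa [← Pool.Agent.Y753.SHR.zn_za] at h1
  · have main := hm (β / 2) (by positivity) (by
      rcases hβκ with h1 | h1
      · left; linarith
      · right; linarith) h k hh.ne' hk.ne' hc F
    have e0 : 2 * (β / 2) = β := by ring
    have e4 : (β / 2) ^ 2 = β ^ 2 / 4 := by ring
    rw [e0, e4] at main
    simp_rw [etw h k hh hk] at main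
    exact main
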