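import Pool.Agent.Y752.KP.Std

set_option autoImplicit false

/-!
# The moment of order `2(k+1)` of zeta at generic shifts
-/

namespace Pool.Agent.Results.MP_112ba8_nt.GenericCorrelations

open Complex MeasureTheory

noncomputable section

variable {k : ℕ}

/-- The mean value over `[0, T]` of `|ζ(1/2 + it)| ^ 2` times the product over `l` of
`|ζ(1/2 + i(t + β l))| ^ 2`. At `β = 0` it is `M_{k+1}(T)`. -/
def meanValue (T : ℝ) (β : Fin k → ℝ) : ℝ :=
  1 / T * ∫ t in (0:ℝ)..T, ‖riemannZeta (1 / 2 + I * t)‖ ^ 2 *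
    ∏ l, ‖riemannZeta (1 / 2 + I * (t + β l))‖ ^ 2

/-- The local density at the prime `p`: the mean over the unit circle of the product of the
normalised local factors at `p`. -/
def localDensity (β : Fin k → ℝ) (p : ℕ) : ℝ :=
  (1 - 1 / (p : ℝ)) ^ (k + 1) * ∫ θ in (0:ℝ)..1,
    1 / (‖1 - exp (2 * Real.pi * I * θ) * (p : ℂ) ^ (-(1 / 2) : ℂ)‖ ^ 2 *
      ∏ l, ‖1 - exp (2 * Real.pi * I * θ) * (p : ℂ) ^ (-(1 / 2 + I * β l))‖ ^ 2)

/-- The product of the local densities over the primes up to `log T`. -/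
def density (T : ℝ) (β : Fin k → ℝ) : ℝ :=
  ∏ p ∈ (Finset.range (⌊Real.log T⌋₊ + 1)).filter Nat.Prime, localDensity β p

/-- For every `k` and `θ > 9/10`, all large `T` and all `H` in `[T ^ θ, T]`: the mean value is
`(log T) ^ (k+1) * density * (1 + O((log T) ^ (-1/5)))` for all shift vectors in `[0, H] ^ k` outside
a set of measure at most `H ^ k (log T) ^ (-1/5)`. -/
theorem result (k : ℕ) (θ : ℝ) (hθ : 9 / 10 < θ) : ∃ T₀ : ℝ, ∀ T : ℝ, T₀ ≤ T →
    ∀ H : ℝ, T ^ θ ≤ H → H ≤ T →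
    volume {β : Fin k → ℝ | (∀ l, β l ∈ Set.Icc 0 H) ∧
      ¬ |meanValue T β / (Real.log T ^ (k + 1) * density T β) - 1| ≤
        Real.log T ^ (-(1 / 5) : ℝ)} ≤
      ENNReal.ofReal (H ^ k * Real.log T ^ (-(1 / 5) : ℝ)) :=
  Pool.Agent.Y752.KP.std k hθ

end

end Pool.Agent.Results.MP_112ba8_nt.GenericCorrelations
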