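import Pool.Agent.Y969.SM.FinD

set_option autoImplicit false

/-!
# The moments of zeta with the factor `|ζ|⁴` at the point itself and factors `|ζ|²` at generic distances
-/

namespace Pool.Agent.Results.MP_112ba8_nt.GenericPairsFourth

open Complex MeasureTheory

noncomputable section

variable {n : ℕ}

/-- The mean over `[0, T]` of `|ζ(1/2 + it)|⁴` times the product over `j` of
`|ζ(1/2 + i(t + c j))|²`. At `c = 0` it is the mean of `|ζ(1/2 + it)|^(2(n+2))`. -/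
def moment (T : ℝ) (c : Fin n → ℝ) : ℝ :=
  1 / T * ∫ t in (0:ℝ)..T, ‖riemannZeta (1 / 2 + I * t)‖ ^ 4 *
    ∏ j, ‖riemannZeta (1 / 2 + I * (t + c j))‖ ^ 2

/-- The local density at the prime `p`: the mean over the unit circle of the product of the
normalised local factors at `p`. -/
def localDensity (c : Fin n → ℝ) (p : ℕ) : ℝ :=
  (1 - 1 / (p : ℝ)) ^ (n + 4) * ∫ θ in (0:ℝ)..1,
    1 / (‖1 - exp (2 * Real.pi * I * θ) * (p : ℂ) ^ (-(1 / 2) : ℂ)‖ ^ 4 *
      ∏ j, ‖1 - exp (2 * Real.pi * I * θ) * (p : ℂ) ^ (-(1 / 2 + I * c j))‖ ^ 2)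

/-- The product of the local densities over the primes up to `log T`. -/
def density (T : ℝ) (c : Fin n → ℝ) : ℝ :=
  ∏ p ∈ (Finset.range (⌊Real.log T⌋₊ + 1)).filter Nat.Prime, localDensity c p

/-- The zeta factor of the main term. -/
def zetaFactor (c : Fin n → ℝ) : ℝ :=
  (∏ j, ‖riemannZeta (1 + I * c j)‖ ^ 4) *
    ∏ i, ∏ j ∈ Finset.Ioi i, ‖riemannZeta (1 + I * (c i - c j))‖ ^ 2

/-- The local factor of `A(c)`: the local density over the Euler factor of `zetaFactor c`. -/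
def localFactor (c : Fin n → ℝ) (p : ℕ) : ℝ :=
  localDensity c p * ((∏ j, ‖1 - (p : ℂ) ^ (-(1 + I * c j))‖ ^ 4) *
    ∏ i, ∏ j ∈ Finset.Ioi i, ‖1 - (p : ℂ) ^ (-(1 + I * (c i - c j)))‖ ^ 2)

/-- The arithmetic factor `A(c)`. -/
def arithmeticFactor (c : Fin n → ℝ) : ℝ := ∏' p : Nat.Primes, localFactor c p

/-- For every number `n` of shifts:
(1) The product defining `A(c)` converges absolutely and uniformly in `c`.
(2) The mean over `c ∈ [0, T]^n` of `|moment T c / (log T)^(n+4) - density T c / 12|` tends to `0`.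
(3) `moment T c` is asymptotic to `A(c) * zetaFactor c * (log T)^(n+4) / 12`, up to the factor
`1 + O(ε)`, for all `c ∈ [0, T]^n` outside a set of measure at most `ε T^n`. -/
theorem result (n : ℕ) :
    (∃ C : ℝ, ∀ c : Fin n → ℝ, ∀ p : ℕ, p.Prime → |localFactor c p - 1| ≤ C / (p : ℝ) ^ 2) ∧
    ∀ ε : ℝ, 0 < ε → ∃ T₀ : ℝ, ∀ T : ℝ, T₀ ≤ T →
      IntegrableOn (fun c : Fin n → ℝ => |moment T c / Real.log T ^ (n + 4) - 1 / 12 * density T c|)
        {c | ∀ j, c j ∈ Set.Icc 0 T} ∧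
      ∫ c in {c : Fin n → ℝ | ∀ j, c j ∈ Set.Icc 0 T},
        |moment T c / Real.log T ^ (n + 4) - 1 / 12 * density T c| ≤ ε * T ^ n ∧
      volume {c : Fin n → ℝ | (∀ j, c j ∈ Set.Icc 0 T) ∧
        ¬ |moment T c / (1 / 12 * arithmeticFactor c * zetaFactor c * Real.log T ^ (n + 4)) - 1| ≤ ε} ≤
        ENNReal.ofReal (ε * T ^ n) := by
  obtain ⟨h1, h2⟩ := Pool.Agent.Y969.SM.res_gen Pool.Agent.Y969.SM.main Pool.Agent.Y969.SM.rel
    Pool.Agent.Y969.SM.aa n
  have e6 : ∀ (T : ℝ) (c : Fin n → ℝ) (X : ℝ), moment T c / X =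
      (∫ t in (0:ℝ)..T, ‖riemannZeta (1 / 2 + I * t)‖ ^ 4 *
        ∏ j, ‖riemannZeta (1 / 2 + I * (t + c j))‖ ^ 2) / (T * X) := by
    intro T c X
    rw [moment, one_div, ← div_eq_inv_mul, div_div]
  have e7 : ∀ T a b L : ℝ, T * (a * b * L) = a * b * (T * L) := fun T a b L => by ring
  refine ⟨h1, fun ε hε => ?_⟩
  obtain ⟨T₀, h2⟩ := h2 ε hε
  refine ⟨T₀, fun T hT => ?_⟩
  have := h2 T hT
  simp only [e6, e7]
  exact this

end

end Pool.Agent.Results.MP_112ba8_nt.GenericPairsFourth
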