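import Pool.Agent.Y753.SHR.R23

set_option autoImplicit false

/-!
MP_112ba8_nt. The law of `log |ζ|` under the moment measure `|ζ|^β dt` near the critical line, for every real order
`0 < β ≤ 4`: at any distance `δ(T) → 0` with `δ(T) log T → ∞` from the line it is asymptotically normal with mean
`(β/2) ℓ` and variance `ℓ/2`, where `ℓ = log (1/(2δ))`, jointly with all the twists `(k/h)^{it}`.
-/

open Filter Topology MeasureTheory

/-- the coefficient of `x^j` in `(1 - x)^(-a)`, that is `a (a+1) ... (a+j-1) / j!` -/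
noncomputable def Pool.Agent.Results.MP_112ba8_nt.TiltedLawNearLine.bin (a : ℝ) (j : ℕ) : ℝ :=
  (∏ i ∈ Finset.range j, (a + i)) / j.factorial

/-- the normalised `c`-th Fourier coefficient of the weight `|1 - z/√p|^(-2a)` on the unit circle -/
noncomputable def Pool.Agent.Results.MP_112ba8_nt.TiltedLawNearLine.loc (a : ℝ) (p c : ℕ) : ℝ :=
  √(p:ℝ) ^ c * (∑' i : ℕ, Pool.Agent.Results.MP_112ba8_nt.TiltedLawNearLine.bin a i *
      Pool.Agent.Results.MP_112ba8_nt.TiltedLawNearLine.bin a (i + c) / (p:ℝ) ^ (i + c)) /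
    ∑' i : ℕ, Pool.Agent.Results.MP_112ba8_nt.TiltedLawNearLine.bin a i ^ 2 / (p:ℝ) ^ i

open Pool.Agent.Results.MP_112ba8_nt.TiltedLawNearLine in
theorem Pool.Agent.Results.MP_112ba8_nt.TiltedLawNearLine.result (β : ℝ) (hβ : 0 < β) (hβ4 : β ≤ 4)
    (δ : ℝ → ℝ) (hδ : Tendsto δ atTop (𝓝 0)) (hδL : Tendsto (fun T : ℝ => δ T * Real.log T) atTop atTop)
    (h k : ℕ) (hh : 0 < h) (hk : 0 < k) (hhk : Nat.Coprime h k) (F : BoundedContinuousFunction ℝ ℝ) :
    Tendsto (fun T : ℝ =>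
      (∫ t in (0:ℝ)..T, ((‖riemannZeta ((1 / 2 + δ T : ℝ) + t * Complex.I)‖ ^ β *
          F ((Real.log ‖riemannZeta ((1 / 2 + δ T : ℝ) + t * Complex.I)‖ - β / 2 * Real.log (1 / (2 * δ T))) /
            √(Real.log (1 / (2 * δ T)) / 2)) : ℝ) : ℂ) *
          Complex.exp (Complex.I * t * Real.log ((k:ℝ) / h))) /
        ((∫ t in (0:ℝ)..T, ‖riemannZeta ((1 / 2 + δ T : ℝ) + t * Complex.I)‖ ^ β : ℝ) : ℂ)) atTop
      (𝓝 (((∏ p ∈ (h * k).primeFactors, loc (β / 2) p ((h * k).factorization p)) *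
        ∫ x, F x ∂(ProbabilityTheory.gaussianReal 0 1) : ℝ) : ℂ)) := by
  have e1 : ∀ j : ℕ, bin (β / 2) j = Pool.Agent.H306R2.lc (β / 2) j := by
    intro j
    unfold bin Pool.Agent.H306R2.lc
    rw [Finset.prod_div_distrib, ← Finset.prod_range_add_one_eq_factorial]
    push_cast
    rfl
  have e2 : ∀ p c : ℕ, loc (β / 2) p c = Pool.Agent.Y753.NL.nu (β / 2) p c := by
    intro p c
    unfold loc Pool.Agent.Y753.NL.nu
    simp_rw [e1, one_div, inv_pow, div_eq_mul_inv]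
  simp_rw [e2]
  have main := Pool.Agent.Y753.SHR.tilt_ratio hδ hδL (α0 := β / 2) (by positivity) (by linarith) hh.ne' hk.ne' hhk F
  have e0 : 2 * (β / 2) = β := by ring
  rw [e0] at main
  have etw : ∀ t : ℝ, Pool.Agent.Y753.NL.tw h k t = Complex.exp (Complex.I * t * Real.log ((k:ℝ) / h)) := by
    intro t
    unfold Pool.Agent.Y753.NL.tw
    have hh0 : (h:ℝ) ≠ 0 := by exact_mod_cast hh.ne'
    have hk0 : (k:ℝ) ≠ 0 := by exact_mod_cast hk.ne'
    rw [Real.log_div hk0 hh0]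
    congr 1
    ring
  simp_rw [etw] at main
  exact main
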